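import Mathlib

set_option autoImplicit false

open MeasureTheory Filter Topology Set

namespace Pool.Agent.Results.MP_842b9f_an.No

def IsExp (β x : ℝ) (ε : ℕ → ℕ) : Prop :=
  (∀ i, ε i < ⌈β⌉₊) ∧ HasSum (fun i => (ε i : ℝ) / β ^ (i + 1)) x

def Freq (ε : ℕ → ℕ) (j : ℕ) (p : ℝ) : Prop :=
  Tendsto (fun n : ℕ => (Nat.count (fun i => ε i = j) n : ℝ) / n) atTop (𝓝 p)

def AVFB (β : ℝ) : Prop :=
  ∃ c > (0 : ℝ), ∀ p : ℕ → ℝ,
    (∀ j < ⌈β⌉₊, p j ∈ Icc (1 / (⌈β⌉₊ : ℝ) - c) (1 / (⌈β⌉₊ : ℝ) + c)) →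
    ∑ j ∈ Finset.range ⌈β⌉₊, p j = 1 →
    ∀ᵐ x ∂(volume.restrict (Icc 0 (((⌈β⌉₊ : ℝ) - 1) / (β - 1)))),
      ∃ ε, IsExp β x ε ∧ ∀ j < ⌈β⌉₊, Freq ε j (p j)

noncomputable def b : ℝ := (3 + √21) / 2

theorem b_sq : b ^ 2 = 3 * b + 3 := by
  have := Real.sq_sqrt (show (0 : ℝ) ≤ 21 by norm_num)
  unfold b
  nlinarith

theorem b_lb : 3.791 < b := by
  have : (4.582 : ℝ) < √21 := Real.lt_sqrt_of_sq_lt (by norm_num)
  unfold b
  linarith

theorem b_ub : b < 4 := by
  have : √21 < 5 := (Real.sqrt_lt' (by norm_num)).2 (by norm_num)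
  unfold b
  linarith

noncomputable def val : List ℕ → ℝ
  | [] => 0
  | d :: w => (d + val w) / b

def mid (w : List ℕ) : ℕ := w.count 1 + w.count 2

def pot (w : List ℕ) : ℕ := 3 * w.count 0 + 8 * w.count 1 + 7 * w.count 2

def ok (d : ℕ) (w : List ℕ) : Prop :=
  ¬ ((d = 1 ∨ d = 2) ∧ w.take 2 = [0, 0]) ∧ ¬ (d = 2 ∧ w.take 2 = [3, 3])

instance (d : ℕ) (w : List ℕ) : Decidable (ok d w) := by unfold ok; infer_instance

def G : ℕ → Finset (List ℕ)
  | 0 => {[]}
  | n + 1 => (G n).biUnion fun w => ((Finset.range 4).filter (ok · w)).image (· :: w)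

noncomputable def ψ (w : List ℕ) : ℝ :=
  if w.take 2 = [0, 0] then 0.36 else if w.head? = some 0 then 0.8605
  else if w.take 2 = [3, 3] then 0.68 else if w.head? = some 3 then 0.9303 else 1

noncomputable def u (w : List ℕ) : ℝ := 0.9 ^ mid w * ψ w

theorem ψ_ge (w : List ℕ) : 0.36 ≤ ψ w := by
  unfold ψ
  split_ifs <;> norm_num

theorem u_nonneg (w : List ℕ) : 0 ≤ u w :=
  mul_nonneg (by positivity) (le_trans (by norm_num) (ψ_ge w))

theorem step (w : List ℕ) :
    ∑ d ∈ (Finset.range 4).filter (ok · w), u (d :: w) ≤ 3.592 * u w := by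
  have h0 : mid (0 :: w) = mid w := by simp [mid]
  have h1 : mid (1 :: w) = mid w + 1 := by simp [mid]; omega
  have h2 : mid (2 :: w) = mid w + 1 := by simp [mid]; omega
  have h3 : mid (3 :: w) = mid w := by simp [mid]
  have hT : (0 : ℝ) < 0.9 ^ mid w := by positivity
  simp only [Finset.sum_filter, Finset.sum_range_succ, Finset.sum_range_zero, u, h0, h1, h2, h3,
    pow_succ]
  generalize (0.9 : ℝ) ^ mid w = T at hT
  rcases w with _ | ⟨a, _ | ⟨c, r⟩⟩
  · simp [ok, ψ]
    linarith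
  · by_cases ha : a = 0 <;> by_cases ha' : a = 3 <;> simp [ok, ψ, ha, ha'] <;> linarith
  · by_cases ha : a = 0 <;> by_cases ha' : a = 3 <;> by_cases hc : c = 0 <;> by_cases hc' : c = 3 <;>
      simp [ok, ψ, ha, ha', hc, hc'] <;> linarith

theorem sum_biUnion_le {α γ : Type} [DecidableEq γ] (s : Finset α) (t : α → Finset γ) (f : γ → ℝ)
    (hf : ∀ x, 0 ≤ f x) : ∑ x ∈ s.biUnion t, f x ≤ ∑ a ∈ s, ∑ x ∈ t a, f x := by
  classical
  induction s using Finset.induction_on with
  | empty => simp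
  | insert a s ha ih =>
    rw [Finset.biUnion_insert, Finset.sum_insert ha]
    have := Finset.sum_union_inter (s₁ := t a) (s₂ := s.biUnion t) (f := f)
    have h2 := Finset.sum_nonneg (s := t a ∩ s.biUnion t) fun x _ => hf x
    linarith

theorem sum_G (n : ℕ) : ∑ w ∈ G n, u w ≤ 3.592 ^ n := by
  induction n with
  | zero => simp [G, u, mid, ψ]
  | succ n ih =>
    refine (sum_biUnion_le _ _ _ u_nonneg).trans ?_
    refine (Finset.sum_le_sum (g := fun w => 3.592 * u w) fun w _ => ?_).trans ?_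
    · rw [Finset.sum_image fun x _ y _ h => (List.cons.inj h).1]
      exact step w
    · rw [← Finset.mul_sum, pow_succ]
      linarith

theorem rewrite (w : List ℕ) (hw : ∀ d ∈ w, d < 4) (h : w ∉ G w.length) :
    ∃ v : List ℕ, (∀ d ∈ v, d < 4) ∧ v.length = w.length ∧ val v = val w ∧ mid v ≤ mid w ∧
      pot v < pot w := by
  induction w with
  | nil => simp [G] at h
  | cons d w ih =>
    have hw' : ∀ e ∈ w, e < 4 := fun e he => hw e (List.mem_cons_of_mem _ he)
    by_cases h1 : w ∈ G w.length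
    · have h2 : ¬ ok d w := fun h2 => h (by
        simp only [G, List.length_cons, Finset.mem_biUnion, Finset.mem_image, Finset.mem_filter,
          Finset.mem_range]
        exact ⟨w, h1, d, ⟨hw d List.mem_cons_self, h2⟩, rfl⟩)
      have hb : b ≠ 0 := by linarith [b_lb]
      have hv : ∀ (k : ℕ) (r : List ℕ), val (k :: 3 :: 3 :: r) = val ((k + 1) :: 0 :: 0 :: r) := by
        intro k r
        simp only [val]
        push_cast
        field_simp
        linear_combination (-1 : ℝ) * b_sq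
      rw [← List.take_append_drop 2 w] at hw' ⊢
      generalize w.drop 2 = r at hw' ⊢
      have hr : ∀ e ∈ r, e < 4 := fun e he => hw' e (List.mem_append_right _ he)
      unfold ok at h2
      rw [not_and_or, not_not, not_not] at h2
      rcases h2 with ⟨rfl | rfl, h2⟩ | ⟨rfl, h2⟩ <;> rw [h2]
      · exact ⟨0 :: 3 :: 3 :: r, by simpa using hr, rfl, hv 0 r, by simp [mid],
          by simp [pot]; omega⟩
      · exact ⟨1 :: 3 :: 3 :: r, by simpa using hr, rfl, hv 1 r, by simp [mid]; omega,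
          by simp [pot]; omega⟩
      · exact ⟨3 :: 0 :: 0 :: r, by simpa using hr, rfl, (hv 2 r).symm, by simp [mid],
          by simp [pot]; omega⟩
    · obtain ⟨v, h2, h3, h4, h5, h6⟩ := ih hw' h1
      refine ⟨d :: v, ?_, by simp [h3], by simp [val, h4], ?_, ?_⟩
      · intro e he
        rcases List.mem_cons.1 he with rfl | he
        · exact hw _ List.mem_cons_self
        · exact h2 e he
      · simp only [mid, List.count_cons] at h5 ⊢
        omega
      · simp only [pot, List.count_cons] at h6 ⊢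
        omega

theorem normal (k : ℕ) : ∀ w : List ℕ, pot w < k → (∀ d ∈ w, d < 4) →
    ∃ v ∈ G w.length, val v = val w ∧ mid v ≤ mid w := by
  induction k with
  | zero => simp
  | succ k ih =>
    intro w hk hw
    by_cases h : w ∈ G w.length
    · exact ⟨w, h, rfl, le_rfl⟩
    · obtain ⟨v, h2, h3, h4, h5, h6⟩ := rewrite w hw h
      obtain ⟨v', h7, h8, h9⟩ := ih v (by omega) h2
      exact ⟨v', h3 ▸ h7, h8.trans h4, h9.trans h5⟩

theorem val_pre (n : ℕ) : ∀ ε : ℕ → ℕ,
    val ((List.range n).map ε) = ∑ i ∈ Finset.range n, (ε i : ℝ) / b ^ (i + 1) := by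
  induction n with
  | zero => simp [val]
  | succ n ih =>
    intro ε
    rw [List.range_succ_eq_map, List.map_cons, List.map_map, val, ih, Finset.sum_range_succ',
      add_div, Finset.sum_div, add_comm]
    simp only [Function.comp_apply, Nat.succ_eq_add_one, zero_add, pow_one, div_div, ← pow_succ]

theorem count_pre (ε : ℕ → ℕ) (j n : ℕ) :
    ((List.range n).map ε).count j = Nat.count (fun i => ε i = j) n := by
  induction n with
  | zero => simp
  | succ n ih =>
    rw [List.range_succ, List.map_append, List.count_append, ih, Nat.count_succ]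
    simp [List.count_cons]

def S (n : ℕ) : Set ℝ :=
  ⋃ w ∈ (G n).filter fun w => 200 * mid w ≤ 101 * n, Icc (val w) (val w + 2 / b ^ n)

theorem vol_S (n : ℕ) : volume (S n) ≤ ENNReal.ofReal (6 * (3.592 / (0.948 * b)) ^ n) := by
  have hb : 0 < b := by linarith [b_lb]
  refine (measure_biUnion_finset_le _ _).trans ?_
  simp only [Real.volume_Icc, add_sub_cancel_left, Finset.sum_const, nsmul_eq_mul]
  rw [← ENNReal.ofReal_natCast, ← ENNReal.ofReal_mul (by positivity)]
  refine ENNReal.ofReal_le_ofReal ?_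
  set F := (G n).filter fun w => 200 * mid w ≤ 101 * n
  have h1 : ∑ _w ∈ F, (0.948 : ℝ) ^ n * 0.36 ≤ ∑ w ∈ F, u w := by
    refine Finset.sum_le_sum fun w hw => ?_
    refine mul_le_mul ?_ (ψ_ge w) (by norm_num) (by positivity)
    refine le_of_pow_le_pow_left₀ (n := 200) (by norm_num) (by positivity) ?_
    rw [← pow_mul, ← pow_mul, mul_comm n, pow_mul, mul_comm (mid w)]
    refine le_trans ?_ (pow_le_pow_of_le_one (by norm_num) (by norm_num) (Finset.mem_filter.1 hw).2)
    rw [pow_mul]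
    exact pow_le_pow_left₀ (by positivity) (by norm_num) n
  have h2 : ∑ w ∈ F, u w ≤ 3.592 ^ n :=
    (Finset.sum_le_sum_of_subset_of_nonneg (Finset.filter_subset _ _)
      fun w _ _ => u_nonneg w).trans (sum_G n)
  rw [Finset.sum_const, nsmul_eq_mul] at h1
  rw [div_pow, mul_pow, ← mul_div_assoc, ← mul_div_assoc, ← div_div]
  refine div_le_div_of_nonneg_right ?_ (by positivity)
  rw [le_div_iff₀ (by positivity)]
  have : (0 : ℝ) ≤ F.card * 0.948 ^ n := by positivity
  nlinarith

theorem ceil_b : ⌈b⌉₊ = 4 := by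
  rw [Nat.ceil_eq_iff (by norm_num)]
  constructor <;> norm_num <;> linarith [b_lb, b_ub]

theorem result : ∃ β : ℝ, β = (3 + √21) / 2 ∧ 1 < β ∧ (∀ k : ℤ, β ≠ k) ∧ ¬ AVFB β := by
  have hb := b_lb
  refine ⟨b, rfl, by linarith, fun k hk => ?_, ?_⟩
  · have h1 : (3 : ℝ) < k := by linarith
    have h2 : (k : ℝ) < 4 := hk ▸ b_ub
    have h3 : (3 : ℤ) < k := by exact_mod_cast h1
    have h4 : k < 4 := by exact_mod_cast h2
    omega
  rintro ⟨c, hc, h⟩
  simp only [IsExp, ceil_b] at h
  have h1 := h (fun _ => 1 / 4) (fun j _ => ⟨by push_cast; linarith, by push_cast; linarith⟩)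
    (by simp)
  have hr : 3.592 / (0.948 * b) < 1 := by
    rw [div_lt_one (by positivity)]
    linarith
  have h2 : ∀ᵐ x, ∀ᶠ n in atTop, x ∉ S n := by
    refine ae_eventually_notMem (ne_top_of_le_ne_top ?_ (ENNReal.tsum_le_tsum vol_S))
    rw [← ENNReal.ofReal_tsum_of_nonneg (fun n => by positivity)
      ((summable_geometric_of_lt_one (by positivity) hr).mul_left 6)]
    exact ENNReal.ofReal_ne_top
  haveI : (ae (volume.restrict (Icc (0 : ℝ) ((((4 : ℕ) : ℝ) - 1) / (b - 1))))).NeBot := by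
    rw [ae_restrict_neBot, Real.volume_Icc, ne_eq, ENNReal.ofReal_eq_zero, not_le, sub_zero]
    exact div_pos (by norm_num) (by linarith)
  obtain ⟨x, ⟨ε, ⟨h3, h4⟩, h5⟩, h6⟩ := (h1.and (ae_restrict_of_ae h2)).exists
  have h7 := (h5 1 (by norm_num)).add (h5 2 (by norm_num))
  have h8 := (tendsto_order.1 h7).2 (101 / 200) (by norm_num)
  obtain ⟨n, h9, h10, h11⟩ := (h6.and (h8.and (eventually_gt_atTop 0))).exists
  obtain ⟨v, hv, hv1, hv2⟩ := normal _ ((List.range n).map ε) (Nat.lt_succ_self _) (by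
    intro d hd
    obtain ⟨i, -, rfl⟩ := List.mem_map.1 hd
    exact h3 i)
  rw [List.length_map, List.length_range] at hv
  rw [val_pre] at hv1
  refine h9 (mem_iUnion₂.2 ⟨v, Finset.mem_filter.2 ⟨hv, ?_⟩, ?_⟩)
  · have hn : (0 : ℝ) < n := by exact_mod_cast h11
    rw [← add_div, div_lt_iff₀ hn] at h10
    rw [mid, mid, count_pre, count_pre] at hv2
    have h12 : (mid v : ℝ) ≤ Nat.count (fun i => ε i = 1) n + Nat.count (fun i => ε i = 2) n := by
      exact_mod_cast hv2
    have h13 : (200 : ℝ) * mid v ≤ 101 * n := by linarith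
    exact_mod_cast h13
  · have h12 := (hasSum_nat_add_iff' n).2 h4
    rw [← hv1] at h12
    have h13 := h12.nonneg fun i => by positivity
    have h14 := hasSum_le (fun i => ?_) h12 (hasSum_geometric_two.div_const (b ^ n))
    · exact ⟨by linarith, by linarith⟩
    · have h15 : (ε (i + n) : ℝ) ≤ 3 := by exact_mod_cast Nat.lt_succ_iff.1 (h3 (i + n))
      have h16 : (2 : ℝ) ^ i ≤ b ^ i := pow_le_pow_left₀ (by norm_num) (by linarith) i
      rw [show i + n + 1 = 1 + i + n by omega, pow_add, pow_add, pow_one, ← div_div, one_div,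
        inv_pow]
      refine div_le_div_of_nonneg_right ?_ (by positivity)
      rw [inv_eq_one_div, div_le_div_iff₀ (by positivity) (by positivity)]
      have h17 : (0 : ℝ) < 2 ^ i := by positivity
      nlinarith

end Pool.Agent.Results.MP_842b9f_an.No
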